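import Mathlib

namespace Pool.Agent.Results.MP_b67006_nt.Seven

open Finset

/-- `r ≡ s (mod p^m)` for `p`-integral rationals -/
def Cong (p m : ℕ) (r s : ℚ) : Prop := ∃ c : ℚ, r - s = (p : ℚ) ^ m * c ∧ ¬ p ∣ c.den

/-- generalized central trinomial coefficients -/
def T (n : ℕ) (b c : ℤ) : ℤ :=
  ∑ j ∈ range (n / 2 + 1), (n.choose (2 * j) : ℤ) * ((2 * j).choose j : ℤ) * b ^ (n - 2 * j) * c ^ j

def S (p : ℕ) : ℚ :=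
  ∑ k ∈ range ((p - 1) / 2 + 1), ((2 * k).choose k : ℚ) / 16 ^ k * (T (2 * k) 2 3 : ℚ)

def S' (p : ℕ) : ℚ :=
  ∑ k ∈ range p, ((2 * k).choose k : ℚ) / 16 ^ k * (T (2 * k) 4 (-3) : ℚ)

/-- the statement of Q1 -/
def Q1 : Prop := ∀ p : ℕ, p.Prime → 3 < p →
  (p % 3 = 1 → ∀ x y : ℤ, (p : ℤ) = x ^ 2 + 3 * y ^ 2 → x % 3 = 1 →
    Cong p 2 (S p) (S' p) ∧
    Cong p 2 (S' p) ((-1) ^ ((p - 1) / 2) * (2 * x - (p : ℚ) / (2 * x)))) ∧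
  (p % 3 = 2 → Cong p 1 (S p) (S' p) ∧ Cong p 1 (S' p) 0)

theorem val : S' 7 = -781639815 / 1048576 := by decide +kernel

theorem fails : ¬ Cong 7 2 (S' 7) ((-1) ^ ((7 - 1) / 2) * (2 * ((-2 : ℤ) : ℚ) -
    ((7 : ℕ) : ℚ) / (2 * ((-2 : ℤ) : ℚ)))) := by
  rintro ⟨c, hc, hd⟩
  rw [val] at hc
  have : c = -111999873 / 7340032 := by
    norm_num at hc
    linarith
  rw [this] at hd
  exact hd (by decide +kernel)

theorem result : ¬ Q1 ∧ ¬ Cong 7 2 (S' 7) ((-1) ^ ((7 - 1) / 2) * (2 * ((-2 : ℤ) : ℚ) -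
    ((7 : ℕ) : ℚ) / (2 * ((-2 : ℤ) : ℚ)))) :=
  ⟨fun h => fails ((h 7 (by norm_num) (by norm_num)).1 (by norm_num) (-2) 1 (by norm_num)
    (by norm_num)).2, fails⟩

end Pool.Agent.Results.MP_b67006_nt.Seven
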